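import Pool.Agent.TH882.R6

/-!
# Systems of linear forms and of polynomials of arbitrary degrees, with prime and almost prime values

Lower bounds, correct up to a power of the logarithm, for the number of the `n ≤ x` for which `n`,
the `n + h`, `h ∈ H`, and the `g_j (n) + k_j` are prime (`g_j` polynomials of arbitrary degrees, `H`
one of finitely many sets with `m` elements) while all the `n + b` and `n + h + b`, `b ∈ S`, are
almost primes, for any given finite set `S` of integers and almost all vectors of the constant terms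
`k_j` (up to any multiple of `x ^ deg g_j`).

The library theorem `Pool.Agent.TH882.RF.finR` (a starting file) is used.
-/

set_option autoImplicit false

open Finset Filter Topology Polynomial

namespace Pool.Agent.Results.MP_a17b09_nt.AlmostPrimeTranslates

/-- The product of the linear forms `n + a`, `a ∈ A`, and of the polynomials `g j (n) + k j` has no
fixed prime divisor. -/
def NoFixedDivisor {r : ℕ} (g : Fin r → ℤ[X]) (k : Fin r → ℕ) (A : Finset ℤ) : Prop :=
  ∀ l : ℕ, l.Prime → ∃ n : ℤ, ¬ (l : ℤ) ∣ (∏ a ∈ A, (n + a)) * ∏ j, ((g j).eval n + k j)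

/-- The number of the integers `1 ≤ n ≤ x` such that `n` and all `n + h`, `h ∈ H`, are prime, all the
`g j (n) + k j` are prime, and all the `n + h + b`, `h ∈ {0} ∪ H`, `b ∈ S`, are positive with at most
`R` prime factors (with multiplicity). -/
noncomputable def countShifts {r : ℕ} (g : Fin r → ℤ[X]) (k : Fin r → ℕ) (H S : Finset ℤ)
    (R x : ℕ) : ℕ :=
  {n : ℕ | (1 ≤ n ∧ n ≤ x) ∧
    (∀ j, 0 < (g j).eval (n : ℤ) + k j ∧ ((g j).eval (n : ℤ) + k j).natAbs.Prime) ∧
    ∀ h ∈ insert 0 H, (0 < (n : ℤ) + h ∧ ((n : ℤ) + h).natAbs.Prime) ∧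
      ∀ b ∈ S, 0 < (n : ℤ) + h + b ∧
        ArithmeticFunction.cardFactors ((n : ℤ) + h + b).natAbs ≤ R}.ncard

/-- The vectors `k` with `1 ≤ k j ≤ κ x ^ deg (g j)`, for which the product of `n`, the `n + b`,
`b ∈ S`, and the `g j (n) + k j` has no fixed prime divisor, such that for no set `H` of `m` nonzero
integers of absolute value at most `C` the number `countShifts` is at least `x / (log x) ^ D`. -/
def exceptionsShifts {r : ℕ} (g : Fin r → ℤ[X]) (S : Finset ℤ) (m R C D κ x : ℕ) :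
    Set (Fin r → ℕ) :=
  {k | (∀ j, 1 ≤ k j ∧ k j ≤ κ * x ^ (g j).natDegree) ∧ NoFixedDivisor g k (insert 0 S) ∧
    ¬ ∃ H : Finset ℤ, H.card = m ∧ (∀ h ∈ H, h ≠ 0 ∧ |h| ≤ C) ∧
      (x : ℝ) / Real.log x ^ D ≤ (countShifts g k H S R x : ℝ)}

lemma toNat_prime {z : ℤ} (h : z.toNat.Prime) : 0 < z ∧ z.natAbs.Prime := by
  have h1 := h.pos
  have h2 : z.natAbs = z.toNat := by omega
  exact ⟨by omega, by rwa [h2]⟩

lemma loc_shifts {r : ℕ} (g : Fin r → ℤ[X]) (k : Fin r → ℕ) (S : Finset ℤ)
    (h : NoFixedDivisor g k (insert 0 S)) :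
    Pool.Agent.TH882.RF.LocR g S (fun j => (k j : ℤ)) := by
  classical
  intro l hl
  obtain ⟨n, hn⟩ := h l hl
  have key : ∀ a ∈ insert 0 S, ¬ (l : ℤ) ∣ n + a := fun a ha hd =>
    hn ((hd.trans (Finset.dvd_prod_of_mem (fun a : ℤ => n + a) ha)).mul_right _)
  refine ⟨n, ?_, ?_, fun a ha => key a (mem_insert_of_mem ha)⟩
  · have h1 := key 0 (mem_insert_self _ _)
    rwa [add_zero] at h1
  · intro j hd
    apply hn
    apply Dvd.dvd.mul_left
    refine dvd_trans ?_ (Finset.dvd_prod_of_mem (fun j => (g j).eval n + (k j : ℤ)) (mem_univ j))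
    have e : (k j : ℤ) + 1 * (g j).eval n = (g j).eval n + k j := by ring
    rwa [e] at hd

lemma countShifts_ge {r : ℕ} (g : Fin r → ℤ[X]) (k : Fin r → ℕ) (H S : Finset ℤ) (R x : ℕ) :
    (Pool.Agent.TH882.RF.SysR g S R H (fun j => (k j : ℤ)) x).card ≤
      countShifts g k H S R x := by
  classical
  unfold countShifts
  rw [← Set.ncard_coe_finset]
  apply Set.ncard_le_ncard
  · intro n hn
    unfold Pool.Agent.TH882.RF.SysR at hn
    rw [mem_coe, mem_filter, mem_Icc] at hn
    obtain ⟨h1, h2, h3⟩ := hn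
    rw [Set.mem_ofPred_eq]
    refine ⟨h1, ?_, ?_⟩
    · intro j
      have e1 := toNat_prime (h2 j)
      have e2 : (k j : ℤ) + 1 * (g j).eval (n : ℤ) = (g j).eval (n : ℤ) + k j := by ring
      rwa [e2] at e1
    · intro h hh
      obtain ⟨-, e2, e3⟩ := h3 h hh
      refine ⟨toNat_prime e2, fun b hb => ?_⟩
      obtain ⟨e4, e5⟩ := e3 b hb
      refine ⟨e4, ?_⟩
      have e6 : ((n : ℤ) + h + b).natAbs = ((n : ℤ) + h + b).toNat := by omega
      rw [e6]
      exact e5
  · apply (finite_toSet (Icc 1 x)).subset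
    intro n hn
    rw [Set.mem_ofPred_eq] at hn
    rw [mem_coe, mem_Icc]
    exact hn.1

theorem part_two {r : ℕ} (g : Fin r → ℤ[X]) (hd : ∀ j, 1 ≤ (g j).natDegree)
    (hl : ∀ j, 0 < (g j).leadingCoeff) (S : Finset ℤ) (m : ℕ) :
    ∃ R C D : ℕ, ∀ κ : ℕ, Tendsto (fun x : ℕ =>
      ((exceptionsShifts g S m R C D κ x).ncard : ℝ) / ∏ j, (x : ℝ) ^ (g j).natDegree)
      atTop (𝓝 0) := by
  classical
  obtain ⟨R, C, D, h⟩ := Pool.Agent.TH882.RF.finR g hd hl S m
  refine ⟨R, C, D, fun κ => ?_⟩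
  refine squeeze_zero (fun x => by positivity) (fun x => ?_) (h κ)
  apply div_le_div_of_nonneg_right _ (by positivity)
  apply Nat.cast_le.2
  rw [← Set.ncard_coe_finset]
  apply Set.ncard_le_ncard _ (finite_toSet _)
  intro k hk
  unfold exceptionsShifts at hk
  rw [Set.mem_ofPred_eq] at hk
  obtain ⟨h1, h2, h3⟩ := hk
  unfold Pool.Agent.TH882.RF.ExR
  rw [mem_coe, mem_filter, Fintype.mem_piFinset]
  refine ⟨fun j => mem_Icc.2 (h1 j), loc_shifts g k S h2, ?_⟩
  rintro ⟨H, hH1, hH2, hH3⟩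
  exact h3 ⟨H, hH1, hH2, hH3.trans (by exact_mod_cast countShifts_ge g k H S R x)⟩

/-- **Prime and almost prime values of linear forms and of polynomials of arbitrary degrees.**

Let `g_1, …, g_r` be nonconstant integer polynomials with positive leading coefficients, `S` a finite
set of integers and `m ≥ 1`. There are `R`, `C`, `D` such that for every `κ ≥ 1` and for all vectors `k`
of integers `1 ≤ k_j ≤ κ x ^ deg g_j` for which the product of `x`, the `x + b`, `b ∈ S`, and the
`g_j + k_j` has no fixed prime divisor, with `o (∏ x ^ deg g_j)` exceptions, there is a set `H` of `m`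
nonzero integers of absolute value at most `C` such that for at least `x / (log x) ^ D` of the integers
`1 ≤ n ≤ x` the numbers `n`, `n + h` (`h ∈ H`) and `g_j (n) + k_j` are all prime and all the `n + b` and
`n + h + b`, `b ∈ S`, have at most `R` prime factors. -/
theorem result {r : ℕ} (g : Fin r → ℤ[X]) (hd : ∀ j, 1 ≤ (g j).natDegree)
    (hl : ∀ j, 0 < (g j).leadingCoeff) (S : Finset ℤ) (m : ℕ) :
    ∃ R C D : ℕ, ∀ κ : ℕ, Tendsto (fun x : ℕ =>
      ((exceptionsShifts g S m R C D κ x).ncard : ℝ) / ∏ j, (x : ℝ) ^ (g j).natDegree)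
      atTop (𝓝 0) :=
  part_two g hd hl S m

end Pool.Agent.Results.MP_a17b09_nt.AlmostPrimeTranslates
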