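import Pool.Agent.TH464.PO.QuadAP

set_option autoImplicit false

/-!
# Almost prime values of admissible quadratic polynomials: the Poisson law in short windows

Let `f(m) = a m ^ 2 + b m + c` be admissible and call `m` good if `f(m)` has no prime factor up to
`X ^ (1 / r)` (for `m ≤ 3 X` it then has at most `2 r` prime factors). Let `V` be the product of
`1 - ρ(p) / p` over the primes `p ≤ X ^ (1 / r)`, the density of the good integers. For `n` in any
interval `(X, X + Y]` with `Y ≥ X ^ θ` the number of the good integers in the window `(n, n + T]` has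
the Poisson distribution with the mean value `T V`, up to an error `ε` which tends to `0` as `r`
grows; `r` depends on `ε`, `θ` and the bound for `T V` only, and `X` tends to infinity.

This is the final theorem `Pool.Agent.TH464.PO.poisson_all` of the starting library for one quadratic
polynomial; none of the starting hand-ins states it (`MP_a1177c_nt.ExactWindows` is the law of large numbers in
long windows, proved with the same tools).
-/

namespace Pool.Agent.Results.MP_a17b09_nt.PoissonLaw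

open Finset Filter

/-- The value `a m ^ 2 + b m + c` is not divisible by any prime up to `X ^ (1 / r)`. -/
def Good (a b c : ℤ) (r X m : ℕ) : Prop :=
  ∀ p : ℕ, p.Prime → (p : ℝ) ≤ (X : ℝ) ^ (1 / (r : ℝ)) → ¬ (p : ℤ) ∣ a * (m : ℤ) ^ 2 + b * m + c

open Classical in
/-- The number of the good `m` in the window `(n, n + T]`. -/
noncomputable def W (a b c : ℤ) (r X T n : ℕ) : ℕ :=
  ((Finset.Ioc n (n + T)).filter (fun m => Good a b c r X m)).card

open Classical in
/-- The sieve density: the product of `1 - ρ(p) / p` over the primes `p ≤ X ^ (1 / r)`, where `ρ(p)` is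
the number of the `m` mod `p` with `p ∣ a m ^ 2 + b m + c`. -/
noncomputable def V (a b c : ℤ) (r X : ℕ) : ℝ :=
  ∏ p ∈ (Finset.range (⌊(X : ℝ) ^ (1 / (r : ℝ))⌋₊ + 1)).filter Nat.Prime,
    (1 - (((Finset.range p).filter
      (fun m : ℕ => (p : ℤ) ∣ a * (m : ℤ) ^ 2 + b * m + c)).card : ℝ) / p)

open Pool.Agent.TH464.PO Pool.Agent.W123.RU.Poly Pool.Agent.W123.RP Pool.Agent.H373R2.T7

lemma good_iff (a b c : ℤ) (r X m : ℕ) :
    Sf (Q (qs a b c)) ⌊(X : ℝ) ^ (1 / (r : ℝ))⌋₊ m ↔ Good a b c r X m := by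
  have h0 : (0 : ℝ) ≤ (X : ℝ) ^ (1 / (r : ℝ)) := by positivity
  constructor
  · intro h p hp hpX hd
    exact h p (mem_pz.2 ⟨Nat.le_floor hpX, hp⟩) ((qs_Q a b c p m).2 hd)
  · intro h p hp hd
    obtain ⟨h1, h2⟩ := mem_pz.1 hp
    exact h p h2 ((Nat.le_floor_iff h0).1 h1) ((qs_Q a b c p m).1 hd)

open Classical in
/-- **The Poisson law for the almost prime values of an admissible quadratic polynomial in short
windows.** -/
theorem result (a b c : ℤ) (ha : 0 < a)
    (hg : ∀ p : ℕ, p.Prime → ¬ ((p : ℤ) ∣ a ∧ (p : ℤ) ∣ b ∧ (p : ℤ) ∣ c))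
    (hpar : ¬ (Even (a + b) ∧ Even c)) (hD : ¬ IsSquare (b ^ 2 - 4 * a * c))
    (θ : ℝ) (hθ : 0 < θ) (x0 ε : ℝ) (hε : 0 < ε) :
    ∃ r0 : ℕ, ∀ r : ℕ, r0 ≤ r → ∀ᶠ X : ℕ in atTop,
      (∀ m : ℕ, m ≤ 3 * X → Good a b c r X m →
        (a * (m : ℤ) ^ 2 + b * m + c).natAbs.primeFactorsList.length ≤ 2 * r) ∧
      ∀ Y : ℕ, (X : ℝ) ^ θ ≤ Y → ∀ T : ℕ, T * V a b c r X ≤ x0 → ∀ A : Finset ℕ,
        |(((Finset.Ioc X (X + Y)).filter (fun n => W a b c r X T n ∈ A)).card : ℝ) -
          Y * ∑ j ∈ A, Real.exp (-(T * V a b c r X)) * (T * V a b c r X) ^ j / j.factorial| ≤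
        ε * Y := by
  obtain ⟨r0, h0⟩ := poisson_all (qs a b c) (qs_sys a b c ha hg hpar hD) (qs_noTr a b c ha) θ hθ x0 ε hε
  refine ⟨max r0 1, ?_⟩
  intro r hr
  filter_upwards [h0 r ((le_max_left _ _).trans hr), sf_APq a b c r ((le_max_right _ _).trans hr)]
    with X hX hap
  refine ⟨fun m hm hgood => ((hap m hm).1 ((good_iff a b c r X m).2 hgood)).1, ?_⟩
  intro Y hXY T hT A
  have hV : Vq (Q (qs a b c)) ⌊(X : ℝ) ^ (1 / (r : ℝ))⌋₊ = V a b c r X := qs_V a b c _
  have h1 := hX Y hXY T (by rw [hV]; exact hT) A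
  rw [hV] at h1
  have hW : ∀ n, Np (qs a b c) ⌊(X : ℝ) ^ (1 / (r : ℝ))⌋₊ T n = W a b c r X T n := by
    intro n
    unfold Np W
    congr 1
    apply Finset.filter_congr
    intro m _
    exact good_iff a b c r X m
  simp only [hW] at h1
  exact h1

end Pool.Agent.Results.MP_a17b09_nt.PoissonLaw
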