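import Pool.Agent.Y816.PD.UniG

/-!
# Values of quadratic polynomials at integers with restricted digits

Let `g ≥ 2` be a base and let the digits of an integer `n < g^K` be restricted: the `i`-th digit belongs
to a set `A i`, where the sets `A i` are arbitrary, depend on the place `i < K`, and have the only
property that the number `∏ |A i|` of these integers is at least `e^{-δK} g^K`, where the constant
`δ > 0` does not depend on `g`.  (For example one digit may be excluded at every place if `g` is large;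
or a positive proportion of the digits may be fixed.)  For an admissible quadratic polynomial
`f = a t² + b t + c` the number of these `n` with `f(n)` prime should be of the order of magnitude
`V ∏ |A i|` (if the last digit can be chosen such that `f(n)` is prime to `g`), where `V` is the product
over the primes `p ≤ g^K` of `1 - ρ(p) / p`, and `ρ(p)` is the number of the roots of `f` modulo `p`.
For a fixed polynomial this is the order of magnitude `C(a, b, c) ∏ |A i| / log g^K` of Conjecture F.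

We show that this is an upper bound for the number of the `n` with `f(n)` prime, and a lower bound for
the number of the `n` such that `f(n)` has at most `r` prime factors, all of them larger than
`g^{K/r}`; here `f` is any admissible quadratic polynomial whose coefficients are bounded by an
arbitrary fixed power of `g^K`.  In particular one can take `f(N + n)` with `N ≤ g^{DK}` instead of
`f(n)`, which gives values in short intervals.

The method is a Brun–Hooley sieve with weights, whose level of distribution is obtained from the Fourier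
transform of the set of the integers with restricted digits at rationals (large sieve in blocks of
digits), see `Pool/Agent/Y816/PD`.
-/

set_option autoImplicit false

namespace Pool.Agent.Results.MP_a17b09_nt.RestrictedDigits

open Finset Filter

/-- `a > 0`, `gcd (a, b, c) = 1`, `b² - 4 a c` is not a square, and `a + b` and `c` are not both even. -/
def Admissible (a b c : ℤ) : Prop :=
  0 < a ∧ (∀ p : ℕ, p.Prime → ¬ ((p : ℤ) ∣ a ∧ (p : ℤ) ∣ b ∧ (p : ℤ) ∣ c)) ∧
    ¬ IsSquare (b ^ 2 - 4 * a * c) ∧ ¬ (2 ∣ a + b ∧ 2 ∣ c)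

/-- The value of the polynomial `a t ^ 2 + b t + c` at `n`. -/
def value (a b c : ℤ) (n : ℕ) : ℤ := a * (n : ℤ) ^ 2 + b * (n : ℤ) + c

open Classical in
/-- The product over the primes `p ≤ x` of `1 - ρ(p) / p`, where `ρ(p)` is the number of the roots of
`a t ^ 2 + b t + c` modulo `p`. -/
noncomputable def V (a b c : ℤ) (x : ℕ) : ℝ := ∏ p ∈ (Icc 1 x).filter Nat.Prime,
  (1 - (((range p).filter (fun n : ℕ => (p : ℤ) ∣ value a b c n)).card : ℝ) / p)

open Classical in
/-- The number of the `n < g ^ K` in `S` whose `i`-th digit in base `g` belongs to `A i` for all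
`i < K`. -/
noncomputable def count (g K : ℕ) (A : ℕ → Finset ℕ) (S : Set ℕ) : ℕ :=
  ((range (g ^ K)).filter (fun n => (∀ i < K, n / g ^ i % g ∈ A i) ∧ n ∈ S)).card

/-- The number of choices of the digits. -/
noncomputable def choices (K : ℕ) (A : ℕ → Finset ℕ) : ℝ := ∏ i ∈ range K, ((A i).card : ℝ)

/-- `m` has at most `r` prime factors, counted with multiplicity, and all of them are larger than
`z ^ (1 / r)`. -/
def AlmostPrime (r z m : ℕ) : Prop :=
  (∀ p : ℕ, p.Prime → p ∣ m → z < p ^ r) ∧ m.primeFactorsList.length ≤ r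

lemma exists_not_dvd {a b c : ℤ} (h : Admissible a b c) (p : ℕ) (hp : p.Prime) :
    ∃ n : ℕ, ¬ (p : ℤ) ∣ value a b c n := by
  by_contra hc
  push Not at hc
  have h0 : (p : ℤ) ∣ c := by simpa [value] using hc 0
  have h1 : (p : ℤ) ∣ a + b + c := by simpa [value] using hc 1
  have h2 : (p : ℤ) ∣ 4 * a + 2 * b + c := by
    have := hc 2
    simp only [value, Nat.cast_ofNat] at this
    have e : a * 2 ^ 2 + b * 2 + c = 4 * a + 2 * b + c := by ring
    rwa [e] at this
  have h3 : (p : ℤ) ∣ a + b := by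
    have := dvd_sub h1 h0
    have e : a + b + c - c = a + b := by ring
    rwa [e] at this
  by_cases hp2 : p = 2
  · subst hp2
    exact h.2.2.2 ⟨by exact_mod_cast h3, by exact_mod_cast h0⟩
  · have h4 : (p : ℤ) ∣ 2 * a := by
      have := dvd_sub (dvd_sub h2 h0) (Dvd.dvd.mul_left h3 2)
      have e : 4 * a + 2 * b + c - c - 2 * (a + b) = 2 * a := by ring
      rwa [e] at this
    have hpp : Prime (p : ℤ) := Nat.prime_iff_prime_int.1 hp
    have h5 : (p : ℤ) ∣ a := by
      rcases hpp.dvd_or_dvd h4 with h6 | h6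
      · exfalso
        have h7 : p ∣ 2 := by exact_mod_cast h6
        exact hp2 ((Nat.prime_dvd_prime_iff_eq hp Nat.prime_two).1 h7)
      · exact h6
    have h6 : (p : ℤ) ∣ b := by
      have := dvd_sub h3 h5
      have e : a + b - a = b := by ring
      rwa [e] at this
    exact h.2.1 p hp ⟨h5, h6, h0⟩

/-- **Values of quadratic polynomials at integers with restricted digits.** -/
theorem result (D : ℕ) :
    ∃ δ : ℝ, 0 < δ ∧ ∃ r₀ : ℕ, 2 ≤ r₀ ∧ ∀ r : ℕ, r₀ ≤ r → ∀ g : ℕ, 2 ≤ g →
      ∃ κ C : ℝ, 0 < κ ∧ 0 < C ∧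
      ∀ᶠ K : ℕ in atTop, ∀ a b c : ℤ, Admissible a b c →
        |a| ≤ g ^ (D * K) → |b| ≤ g ^ (D * K) → |c| ≤ g ^ (D * K) →
        ∀ A : ℕ → Finset ℕ, (∀ i < K, A i ⊆ range g) →
        (g : ℝ) ^ K ≤ Real.exp (δ * K) * choices K A →
        ((∃ d ∈ A 0, (value a b c d).natAbs.Coprime g) → (∃ d ∈ A (K - 1), d ≠ 0) →
          κ * choices K A * V a b c (g ^ K) ≤ count g K A {n | g ^ (K - 1) ≤ n ∧
            AlmostPrime r (g ^ K) (value a b c n).natAbs}) ∧
        (count g K A {n | (value a b c n).natAbs.Prime ∧ n < (value a b c n).natAbs ^ 2} : ℝ) ≤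
          C * choices K A * V a b c (g ^ K) := by
  classical
  obtain ⟨δ, hδ, r₀, hr₀, h⟩ := Pool.Agent.Y816.PD.uni_top 2 (D + 4) (by norm_num)
  refine ⟨δ, hδ, r₀, hr₀, fun r hr g hg => ?_⟩
  obtain ⟨κ, C, hκ, hC, h1⟩ := h r hr g hg
  refine ⟨κ, C, hκ, hC, ?_⟩
  filter_upwards [h1, eventually_ge_atTop 2] with K hK hK2 a b c hadm ha hb hc A hA hprod
  have hpoly : ∃ P : Polynomial ℤ, P.natDegree ≤ 2 ∧ ∀ n : ℕ, P.eval (n : ℤ) = value a b c n := by
    refine ⟨Polynomial.C a * Polynomial.X ^ 2 + Polynomial.C b * Polynomial.X + Polynomial.C c,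
      Polynomial.natDegree_quadratic_le, fun n => ?_⟩
    simp [value]
  have hsize : ∀ n : ℕ, n < g ^ K → (value a b c n).natAbs ≤ g ^ ((D + 4) * K) := by
    intro n hn
    have hn' : ((n : ℤ)) ≤ (g : ℤ) ^ K := by exact_mod_cast hn.le
    have hn0 : (0 : ℤ) ≤ n := Int.natCast_nonneg n
    have hG : (1 : ℤ) ≤ (g : ℤ) ^ K := by exact_mod_cast Nat.one_le_pow _ _ (by omega)
    have hGD : (0 : ℤ) ≤ (g : ℤ) ^ (D * K) := by positivity
    have h3 : |value a b c n| ≤ 3 * ((g : ℤ) ^ (D * K) * ((g : ℤ) ^ K) ^ 2) := by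
      have e1 : |a * (n : ℤ) ^ 2| ≤ (g : ℤ) ^ (D * K) * ((g : ℤ) ^ K) ^ 2 := by
        rw [abs_mul, abs_of_nonneg (by positivity : (0 : ℤ) ≤ (n : ℤ) ^ 2)]
        exact mul_le_mul ha (pow_le_pow_left₀ hn0 hn' 2) (by positivity) hGD
      have e2 : |b * (n : ℤ)| ≤ (g : ℤ) ^ (D * K) * ((g : ℤ) ^ K) ^ 2 := by
        rw [abs_mul, abs_of_nonneg hn0]
        refine mul_le_mul hb ?_ hn0 hGD
        exact hn'.trans (by nlinarith)
      have e3 : |c| ≤ (g : ℤ) ^ (D * K) * ((g : ℤ) ^ K) ^ 2 := by
        refine hc.trans ?_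
        nlinarith [mul_le_mul_of_nonneg_left (by nlinarith : (1 : ℤ) ≤ ((g : ℤ) ^ K) ^ 2) hGD]
      have e4 : |value a b c n| ≤ |a * (n : ℤ) ^ 2| + |b * (n : ℤ)| + |c| := by
        unfold value
        exact (abs_add_le _ _).trans (add_le_add_left (abs_add_le _ _) _)
      linarith
    have h4 : (3 : ℤ) ≤ ((g : ℤ) ^ K) ^ 2 := by
      have h5 : 2 ^ 2 ≤ g ^ K := (Nat.pow_le_pow_left hg 2).trans (Nat.pow_le_pow_right (by omega) hK2)
      have h6 : (4 : ℤ) ≤ (g : ℤ) ^ K := by exact_mod_cast h5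
      nlinarith
    have h7 : |value a b c n| ≤ (g : ℤ) ^ ((D + 4) * K) := by
      refine h3.trans ?_
      have e : (g : ℤ) ^ ((D + 4) * K) = ((g : ℤ) ^ K) ^ 2 * ((g : ℤ) ^ (D * K) * ((g : ℤ) ^ K) ^ 2) := by
        rw [← pow_mul, ← pow_add, ← pow_add]
        congr 1
        ring
      rw [e]
      exact mul_le_mul_of_nonneg_right h4 (by positivity)
    have h8 : ((value a b c n).natAbs : ℤ) ≤ ((g ^ ((D + 4) * K) : ℕ) : ℤ) := by
      rw [Int.natCast_natAbs]
      exact_mod_cast h7
    exact_mod_cast h8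
  obtain ⟨h2, h3⟩ := hK (value a b c) hpoly (exists_not_dvd hadm) hsize A hA hprod
  have hV : Pool.Agent.Y816.PD.WG (value a b c) (g ^ K) = V a b c (g ^ K) := rfl
  rw [hV] at h2 h3
  refine ⟨fun hd htop => (h2 hd htop).trans (Nat.cast_le.2 ?_), le_trans (Nat.cast_le.2 ?_) h3⟩
  · unfold count Pool.Agent.Y816.PD.ND
    refine card_le_card fun n hn => ?_
    simp only [mem_filter, Set.mem_ofPred_eq] at hn ⊢
    refine ⟨hn.1, hn.2.1, hn.2.2.1, ?_, hn.2.2.2.2⟩
    intro p hp hdvd
    exact hn.2.2.2.1 p hp (Int.natCast_dvd.2 hdvd)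
  · unfold count Pool.Agent.Y816.PD.ND
    refine card_le_card fun n hn => ?_
    simp only [mem_filter, Set.mem_ofPred_eq] at hn ⊢
    refine ⟨hn.1, hn.2.1, ?_⟩
    intro p hp hdvd
    have h5 := (Nat.prime_dvd_prime_iff_eq hp hn.2.2.1).1 (Int.natCast_dvd.1 hdvd)
    rw [h5]
    exact lt_of_lt_of_le hn.2.2.2 (Nat.pow_le_pow_right hn.2.2.1.pos (by omega))

end Pool.Agent.Results.MP_a17b09_nt.RestrictedDigits
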