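import Pool.Agent.Helper29.BE.Iter

/-!
# Quadratic polynomials with a prime value at a very small argument, on average over the constant term

Let `a_j ≥ 1`, `b_j ≥ 0` be integers up to `M ^ B` (`j = 1, ..., r`) and let `A` be ANY set of positive
integers up to `M` of the same parity, with at least `(log H) ^ r` elements, `H ≥ M ^ K`. Then for at
least `c' H ^ r / (log log M) ^ r` of the `r`-tuples `(c_1, ..., c_r)` of positive integers up to `2 H` all
triples `(a_j, b_j, c_j)` are admissible in the sense of Conjecture F and there is ONE `t` in `A` such that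
all the numbers `a_j t ^ 2 + b_j t + c_j` are prime. So `t` is at most a power of the logarithm of `c_j`. The
constants depend only on `r` and `B`, they are uniform in the polynomials.

The proof is the second moment method, with the sharp form of the upper bound sieve for prime pairs
and the moments of the singular factor over differences of the starting library
(`Pool.Agent.H197R2.PG`), in a form for vectors (`Pool.Agent.Helper29.BE.main2`).
-/

set_option autoImplicit false

open Finset Filter Topology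

namespace Pool.Agent.Results.MP_a17b09_nt.VerySmallArguments

/-- The admissible triples of the question. -/
def Admissible (a b c : ℕ) : Prop :=
  0 < a ∧ Nat.gcd (Nat.gcd a b) c = 1 ∧ ¬ (Even (a + b) ∧ Even c) ∧
    ¬ IsSquare ((b : ℤ) ^ 2 - 4 * a * c)

/-- The `r`-tuples `c` of positive integers up to `2 H` such that all the triples `(a j, b j, c j)` are
admissible and for one `t` in `A` all the numbers `a_j t ^ 2 + b_j t + c_j` are prime. -/
def tuples {r : ℕ} (a b : Fin r → ℕ) (H : ℕ) (A : Set ℕ) : Set (Fin r → ℕ) :=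
  {c | (∀ j, 1 ≤ c j ∧ c j ≤ 2 * H ∧ Admissible (a j) (b j) (c j)) ∧
    ∃ t ∈ A, ∀ j, (a j * t ^ 2 + b j * t + c j).Prime}

lemma tuples_finite {r : ℕ} (a b : Fin r → ℕ) (H : ℕ) (A : Set ℕ) : (tuples a b H A).Finite := by
  apply (Finset.finite_toSet (Fintype.piFinset (fun _ : Fin r => Icc 1 (2 * H)))).subset
  rintro h ⟨h2, -⟩
  rw [mem_coe, Fintype.mem_piFinset]
  intro j
  rw [mem_Icc]
  exact ⟨(h2 j).1, (h2 j).2.1⟩

/-- A prime value forces the triple to be admissible if the constant term is large. -/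
lemma adm {a b c t : ℕ} (ha : 1 ≤ a) (ht : 1 ≤ t) (hb : b ^ 2 ≤ c) (hc : 2 ≤ c)
    (hp : (a * t ^ 2 + b * t + c).Prime) : Admissible a b c := by
  have hat : a ≤ a * t ^ 2 := Nat.le_mul_of_pos_right a (by positivity)
  refine ⟨ha, ?_, ?_, ?_⟩
  · set g : ℕ := Nat.gcd (Nat.gcd a b) c with hg
    have h1 : g ∣ a := (Nat.gcd_dvd_left _ _).trans (Nat.gcd_dvd_left _ _)
    have h2 : g ∣ b := (Nat.gcd_dvd_left _ _).trans (Nat.gcd_dvd_right _ _)
    have h3 : g ∣ c := Nat.gcd_dvd_right _ _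
    have h4 : g ∣ a * t ^ 2 + b * t + c :=
      dvd_add (dvd_add (h1.mul_right _) (h2.mul_right _)) h3
    have h5 : g ≤ a := Nat.le_of_dvd ha h1
    rcases (Nat.dvd_prime hp).1 h4 with h6 | h6
    · exact h6
    · omega
  · rintro ⟨h1, h2⟩
    have h3 : Even (a * t ^ 2 + b * t + c) := by
      apply Even.add _ h2
      have h4 : Even ((a + b) * t) := h1.mul_right t
      have h5 : Even (a * (t * (t + 1))) := (Nat.even_mul_succ_self t).mul_left a
      have h6 : a * t ^ 2 + b * t + 2 * (a * t) = a * (t * (t + 1)) + (a + b) * t := by ring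
      have h7 : Even (a * t ^ 2 + b * t + 2 * (a * t)) := by
        rw [h6]
        exact h5.add h4
      exact (Nat.even_add.1 h7).2 (even_two_mul _)
    have h4 := (hp.even_iff).1 h3
    omega
  · rintro ⟨s, hs⟩
    have h1 : (b : ℤ) ^ 2 ≤ c := by exact_mod_cast hb
    have h2 : (1 : ℤ) ≤ a := by exact_mod_cast ha
    have h3 : (2 : ℤ) ≤ c := by exact_mod_cast hc
    have h4 : (c : ℤ) ≤ a * c := by nlinarith
    nlinarith [mul_self_nonneg s]

open Pool.Agent.Helper29.BE in
/-- **Prime values at very small arguments.** For all `r ≥ 1` and `B` there are `c > 0` and `M₀` such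
that for all `M ≥ M₀`, all integers `1 ≤ a_j ≤ M ^ B`, `0 ≤ b_j ≤ M ^ B` (`j = 1, ..., r`), every set `A` of
positive integers up to `M` of the same parity and every `H ≥ M ^ (17 (2 B + 4))` with
`(log H) ^ r ≤ |A|`: for at least `c H ^ r / (log log M) ^ r` of the `r`-tuples `(c_1, ..., c_r)` of positive
integers up to `2 H` all triples `(a_j, b_j, c_j)` are admissible and there is one `t` in `A` such that
all the numbers `a_j t ^ 2 + b_j t + c_j` are prime. -/
theorem result (r : ℕ) (hr : 1 ≤ r) (B : ℕ) :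
    ∃ (c : ℝ) (M₀ : ℕ), 0 < c ∧ ∀ M : ℕ, M₀ ≤ M → ∀ a b : Fin r → ℕ,
      (∀ j, 1 ≤ a j ∧ a j ≤ M ^ B ∧ b j ≤ M ^ B) → ∀ (e : ℕ) (A : Finset ℕ),
      (∀ t ∈ A, 1 ≤ t ∧ t ≤ M ∧ t % 2 = e % 2) → ∀ H : ℕ, M ^ (17 * (2 * B + 4)) ≤ H →
      Real.log H ^ r ≤ #A →
      c * H ^ r / Real.log (Real.log M) ^ r ≤ ((tuples a b H A).ncard : ℝ) := by
  classical
  obtain ⟨c, hc, Y₀, h⟩ := main2 r (2 * B + 5) hr
  have tll : Tendsto (fun x : ℕ => Real.log (Real.log (x : ℝ))) atTop atTop :=
    Real.tendsto_log_atTop.comp tLog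
  obtain ⟨n₂, hn₂⟩ := eventually_atTop.1 ((tLog.eventually_ge_atTop 3).and
    (tll.eventually_ge_atTop 1))
  refine ⟨c / 2 ^ r, Y₀ + n₂ + 4, by positivity, fun M hM a b hab e A hA H hH hHA => ?_⟩
  obtain ⟨g1, g2⟩ := hn₂ M (by omega)
  have hM4 : 4 ≤ M := by omega
  have hM0 : (0 : ℝ) < M := by exact_mod_cast (by omega : 0 < M)
  -- the number `k`
  set k : ℕ := ⌈Real.log (M : ℝ)⌉₊ with hk
  have hk1 : Real.log (M : ℝ) ≤ k := Nat.le_ceil _
  have hk2 : (k : ℝ) < Real.log M + 1 := Nat.ceil_lt_add_one (by linarith)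
  have hk3 : (3 : ℝ) ≤ k := by linarith
  have hk3' : 3 ≤ k := by exact_mod_cast hk3
  have hlk0 : 0 < Real.log k := Real.log_pos (by linarith)
  have hlk : Real.log k ≤ 2 * Real.log (Real.log M) := by
    have h1 : (k : ℝ) ≤ Real.log M ^ 2 := by nlinarith
    have h2 : Real.log k ≤ Real.log (Real.log M ^ 2) := Real.log_le_log (by linarith) h1
    rw [Real.log_pow] at h2
    exact_mod_cast h2
  obtain ⟨Y, hY⟩ : ∃ Y : ℕ, Y = M ^ (2 * B + 4) := ⟨_, rfl⟩
  obtain ⟨W, hW⟩ : ∃ W : ℕ, W = 2 * M ^ (2 * B) := ⟨_, rfl⟩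
  have hMB : 1 ≤ M ^ B := Nat.one_le_pow _ _ (by omega)
  have hM2B : M ^ (2 * B) = M ^ B * M ^ B := by rw [two_mul, pow_add]
  have hMM : M ^ B ≤ M ^ (2 * B) := by
    rw [hM2B]
    exact Nat.le_mul_of_pos_left _ (by omega)
  have hYe : Y = M ^ (2 * B) * M ^ 2 * M ^ 2 := by rw [hY]; ring
  have hM16 : 16 ≤ M ^ 2 := by nlinarith
  have hWY : W + 1 ≤ Y := by
    have h1 : M ^ (2 * B) * 16 ≤ M ^ (2 * B) * M ^ 2 := Nat.mul_le_mul_left _ hM16
    have h2 : M ^ (2 * B) * M ^ 2 * 1 ≤ M ^ (2 * B) * M ^ 2 * M ^ 2 :=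
      Nat.mul_le_mul_left _ (by omega)
    omega
  have hMY : M ≤ Y := by
    rw [hY]
    calc M = M ^ 1 := (pow_one M).symm
      _ ≤ M ^ (2 * B + 4) := Nat.pow_le_pow_right (by omega) (by omega)
  have hYH : Y ^ 17 ≤ H := by
    refine le_trans (le_of_eq ?_) hH
    rw [hY, ← pow_mul, mul_comm]
  have hYH1 : Y ≤ H := by
    refine le_trans ?_ hYH
    calc Y = Y ^ 1 := (pow_one Y).symm
      _ ≤ Y ^ 17 := Nat.pow_le_pow_right (by omega) (by omega)
  have hA1 : (1 : ℝ) ≤ #A := by
    have h1 : Real.log (M : ℝ) ≤ Real.log H :=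
      Real.log_le_log hM0 (by exact_mod_cast hMY.trans hYH1)
    exact (one_le_pow₀ (by linarith)).trans hHA
  set δ : Fin r → ℕ := fun j => if (a j * e ^ 2 + b j * e) % 2 = 0 then 1 else 0 with hδ
  have hδ1 : ∀ j, δ j ≤ 1 := by
    intro j
    simp only [hδ]
    split_ifs <;> omega
  set a' : Fin r → ℕ → ℕ := fun j t => a j * t ^ 2 + b j * t + δ j + W with ha'
  have hWe : W % 2 = 0 := by omega
  have hpar : ∀ j, ∀ t ∈ A, (a j * t ^ 2 + b j * t) % 2 = (a j * e ^ 2 + b j * e) % 2 := by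
    intro j t ht
    have h1 : t ≡ e [MOD 2] := (hA t ht).2.2
    exact ((h1.pow 2).mul_left (a j)).add (h1.mul_left (b j))
  have h1 := h Y (by omega) H hYH k A a' (fun _ => true) hk3' (by
      intro j t ht t' ht' heq
      have e1 : a j * t ^ 2 + b j * t + δ j + W = a j * t' ^ 2 + b j * t' + δ j + W := heq
      have e2 : a j * t ^ 2 + b j * t = a j * t' ^ 2 + b j * t' := by omega
      have ha1 := (hab j).1
      rcases lt_trichotomy t t' with h5 | h5 | h5
      · have h6 : a j * t ^ 2 < a j * t' ^ 2 :=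
          Nat.mul_lt_mul_of_pos_left (Nat.pow_lt_pow_left h5 (by norm_num)) (by omega)
        have h7 : b j * t ≤ b j * t' := Nat.mul_le_mul_left _ h5.le
        omega
      · exact h5
      · have h6 : a j * t' ^ 2 < a j * t ^ 2 :=
          Nat.mul_lt_mul_of_pos_left (Nat.pow_lt_pow_left h5 (by norm_num)) (by omega)
        have h7 : b j * t' ≤ b j * t := Nat.mul_le_mul_left _ h5.le
        omega) (by
      intro j t ht
      obtain ⟨b1, b2, b3⟩ := hA t ht
      obtain ⟨c1, c2, c3⟩ := hab j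
      constructor
      · change Odd (a j * t ^ 2 + b j * t + δ j + W)
        rw [Nat.odd_iff]
        have e3 := hpar j t ht
        simp only [hδ]
        split_ifs with h6 <;> omega
      · change a j * t ^ 2 + b j * t + δ j + W ≤ Y
        have e4 : a j * t ^ 2 ≤ M ^ (2 * B) * M ^ 2 :=
          Nat.mul_le_mul (c2.trans hMM) (Nat.pow_le_pow_left b2 2)
        have e5 : b j * t ≤ M ^ (2 * B) * M ^ 2 := by
          apply Nat.mul_le_mul (c3.trans hMM)
          nlinarith
        have e6 : W ≤ M ^ (2 * B) * M ^ 2 := by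
          rw [hW, mul_comm]
          exact Nat.mul_le_mul_left _ (by omega)
        have e7 : δ j ≤ M ^ (2 * B) * M ^ 2 := by
          have := hδ1 j
          have h8 : 1 ≤ M ^ (2 * B) * M ^ 2 := by
            have : 1 * 1 ≤ M ^ (2 * B) * M ^ 2 := Nat.mul_le_mul (by omega) (by omega)
            omega
          omega
        have e8 : M ^ (2 * B) * M ^ 2 * 16 ≤ M ^ (2 * B) * M ^ 2 * M ^ 2 :=
          Nat.mul_le_mul_left _ hM16
        rw [hYe]
        omega) hHA (by
      have e1 : 2 * (Y : ℝ) ≤ (M : ℝ) ^ (2 * B + 5) := by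
        have e2 : 2 * Y ≤ M ^ (2 * B + 5) := by
          rw [hY, pow_succ M (2 * B + 4), mul_comm]
          exact Nat.mul_le_mul_left _ (by omega)
        exact_mod_cast e2
      have e3 : (M : ℝ) ^ (2 * B + 5) ≤ Real.exp (((2 * B + 5 : ℕ) : ℝ) * k) := by
        rw [Real.exp_nat_mul]
        apply pow_le_pow_left₀ hM0.le
        calc (M : ℝ) = Real.exp (Real.log M) := (Real.exp_log hM0).symm
          _ ≤ Real.exp k := Real.exp_le_exp.2 hk1
      calc 2 * (Y : ℝ) ≤ Real.exp (((2 * B + 5 : ℕ) : ℝ) * k) := e1.trans e3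
        _ = Real.exp (((2 * B + 5 : ℕ) : ℝ) * k) * 1 := (mul_one _).symm
        _ ≤ Real.exp (((2 * B + 5 : ℕ) : ℝ) * k) * #A :=
            mul_le_mul_of_nonneg_left hA1 (Real.exp_pos _).le)
  have hfin : (#(Sh2 H A a' (fun _ => true)) : ℝ) ≤ ((tuples a b H A).ncard : ℝ) := by
    apply Nat.cast_le.2
    have hinj : Set.InjOn (fun (N : Fin r → ℕ) (j : Fin r) => N j + δ j + W)
        (Sh2 H A a' (fun _ => true) : Set (Fin r → ℕ)) := by
      intro N hN N' hN' heq
      funext j
      have e1 := congrFun heq j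
      simp only at e1
      omega
    rw [← card_image_of_injOn hinj, ← Set.ncard_coe_finset]
    apply Set.ncard_le_ncard _ (tuples_finite a b H A)
    intro N hN
    rw [mem_coe, mem_image] at hN
    obtain ⟨N', hN', rfl⟩ := hN
    unfold Sh2 at hN'
    rw [mem_filter, Fintype.mem_piFinset] at hN'
    obtain ⟨b1, t, ht, b2⟩ := hN'
    have b1' : ∀ j, 1 ≤ N' j ∧ N' j ≤ H ∧ Even (N' j) := fun j => by
      have b3 := b1 j
      rw [mem_filter, mem_Icc] at b3
      exact ⟨b3.1.1, b3.1.2, b3.2⟩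
    have hpr : ∀ j, (a j * t ^ 2 + b j * t + (N' j + δ j + W)).Prime := by
      intro j
      have b3 := b2 j
      rw [if_pos rfl] at b3
      change (a j * t ^ 2 + b j * t + δ j + W + N' j).Prime at b3
      have e1 : a j * t ^ 2 + b j * t + (N' j + δ j + W) =
          a j * t ^ 2 + b j * t + δ j + W + N' j := by omega
      rw [e1]
      exact b3
    refine ⟨fun j => ?_, t, mem_coe.2 ht, hpr⟩
    obtain ⟨b3, b4, b5⟩ := b1' j
    have hd := hδ1 j
    refine ⟨?_, ?_, ?_⟩
    · change 1 ≤ N' j + δ j + W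
      omega
    · change N' j + δ j + W ≤ 2 * H
      omega
    · apply adm (hab j).1 (hA t ht).1 _ _ (hpr j)
      · have e1 : b j ^ 2 ≤ M ^ (2 * B) := by
          rw [hM2B, sq]
          exact Nat.mul_le_mul (hab j).2.2 (hab j).2.2
        omega
      · omega
  refine le_trans ?_ (h1.trans hfin)
  have hll0 : 0 < Real.log (Real.log (M : ℝ)) := by linarith
  rw [div_mul_eq_mul_div, div_div, div_le_div_iff₀ (by positivity) (by positivity)]
  have h3 : Real.log k ^ r ≤ (2 * Real.log (Real.log M)) ^ r := pow_le_pow_left₀ hlk0.le hlk r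
  calc c * (H : ℝ) ^ r * Real.log k ^ r ≤ c * (H : ℝ) ^ r * (2 * Real.log (Real.log M)) ^ r := by
        gcongr
    _ = c * (H : ℝ) ^ r * (2 ^ r * Real.log (Real.log M) ^ r) := by rw [mul_pow]

end Pool.Agent.Results.MP_a17b09_nt.VerySmallArguments
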